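import Mathlib
import Pool.Agent.H592F.Model
import Pool.Agent.H592F.Shape

set_option autoImplicit false
open MeasureTheory ProbabilityTheory Filter

namespace Pool.Agent.Results.MP_4318c2_pr.CoexistShapesDiffer

open Pool.Agent.H592F

theorem slow_lower {x L : ℝ} {m : ℕ} (hx0 : 0 ≤ x) (hx : x ≤ 1 / 2) (hL : m * x = L) :
    Real.exp (-(2 * L)) ≤ (1 - x) ^ m := by
  have h1 : 1 ≤ (1 - x) * Real.exp (2 * x) := by
    have h2 := Real.add_one_le_exp (2 * x)
    have h3 : (1 - x) * (2 * x + 1) ≤ (1 - x) * Real.exp (2 * x) :=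
      mul_le_mul_of_nonneg_left h2 (by linarith)
    nlinarith
  have h4 : Real.exp (-(2 * x)) ≤ 1 - x := by
    rw [Real.exp_neg, inv_le_iff_one_le_mul₀ (Real.exp_pos _)]
    exact h1
  calc Real.exp (-(2 * L)) = Real.exp (-(2 * x)) ^ m := by
        rw [← Real.exp_nat_mul, ← hL]; congr 1; ring
    _ ≤ _ := pow_le_pow_left₀ (Real.exp_pos _).le h4 m

theorem slow_upper {x L : ℝ} {m : ℕ} (hx : x ≤ 1) (hL : m * x = L) :
    (1 - x) ^ m ≤ Real.exp (-L) := by
  have h1 : 1 - x ≤ Real.exp (-x) := by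
    have := Real.add_one_le_exp (-x)
    linarith
  calc (1 - x) ^ m ≤ Real.exp (-x) ^ m := pow_le_pow_left₀ (by linarith) h1 m
    _ = Real.exp (-L) := by rw [← Real.exp_nat_mul, ← hL]; congr 1; ring

/-- In every dimension `d ≥ 2` there are a law `ν` and jump probabilities `p₁`, `p₂` for which the
one-type shapes are different although the two types can coexist, for every tie-breaking rule. -/
theorem result (d : ℕ) [NeZero d] (hd : 2 ≤ d) :
    ∃ (ν : PMF ℕ) (p₁ p₂ : ℝ), ν 0 < 1 ∧ (0 < p₁ ∧ p₁ ≤ 1) ∧ (0 < p₂ ∧ p₂ ≤ 1) ∧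
      (∀ A₁ A₂ : Set (Fin d → ℝ), IsShape d ν p₁ A₁ → IsShape d ν p₂ A₂ → A₁ ≠ A₂) ∧
      ∀ tie : Config d → ℕ → Site d → Bool,
        CanCoexist d ν (fun j => if j then p₁ else p₂) tie := by
  have hdr : (2 : ℝ) ≤ d := by exact_mod_cast hd
  have hd0 : (0 : ℝ) < d := by linarith
  set L : ℝ := 2 * 884101250 with hL
  have hL0 : 0 < L := by rw [hL]; norm_num
  have hexpL : 2 * Real.exp (-L) ≤ 1 / 884101250 := by
    have h1 := Real.add_one_le_exp L
    have h2 : 0 < Real.exp L := Real.exp_pos L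
    rw [Real.exp_neg, ← div_eq_mul_inv, div_le_div_iff₀ h2 (by norm_num)]
    rw [hL] at h1 ⊢
    linarith
  set c0 : ℝ := 2 * d * L with hc0
  have hc0p : 0 < c0 := by rw [hc0]; positivity
  set δ : ℝ := Real.exp (-(2 * L)) with hδ
  have hδ0 : 0 < δ := Real.exp_pos _
  have hδ1 : δ ≤ 1 := by
    rw [hδ, Real.exp_le_one_iff]
    linarith
  set b : ℝ := δ / (136 * (c0 + 1)) with hb
  have hb0 : 0 < b := by rw [hb]; positivity
  have hb1 : b ≤ 1 := by
    rw [hb, div_le_one (by positivity)]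
    linarith
  obtain ⟨M', hM'⟩ := pow_unbounded_of_one_lt (2 / b) (show (1 : ℝ) < 1 + δ / 2 by linarith)
  have hM2 : 2 ≤ b * (1 + δ / 2) ^ M' := by
    rw [div_lt_iff₀ hb0] at hM'
    linarith
  set M := M' + 1 with hM
  have hM0 : 0 < M := by omega
  set r : ℝ := 1 - 1 / (2 * d) with hr
  have hr1 : 1 / (2 * (d : ℝ)) ≤ 1 := by
    rw [div_le_one (by positivity)]
    linarith
  have hr0 : 0 ≤ r := by rw [hr]; linarith
  have hr2 : r < 1 := by
    rw [hr]
    have : 0 < 1 / (2 * (d : ℝ)) := by positivity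
    linarith
  have e1 : ∀ᶠ m : ℕ in atTop, ((4 * M - 1 : ℕ) + 2 : ℝ) * r ^ m ≤ 1 / 884101250 := by
    have h1 := (tendsto_pow_atTop_nhds_zero_of_lt_one hr0 hr2).const_mul
      ((4 * M - 1 : ℕ) + 2 : ℝ)
    rw [mul_zero] at h1
    exact (h1.eventually_lt_const (by norm_num : (0 : ℝ) < 1 / 884101250)).mono fun m hm => hm.le
  have e2 : ∀ᶠ m : ℕ in atTop, c0 / m ≤ b :=
    ((tendsto_const_div_atTop_nhds_zero_nat c0).eventually_lt_const hb0).mono fun m hm => hm.le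
  have e3 : ∀ᶠ m : ℕ in atTop, L / m ≤ 1 / 2 :=
    ((tendsto_const_div_atTop_nhds_zero_nat L).eventually_lt_const
      (by norm_num : (0 : ℝ) < 1 / 2)).mono fun m hm => hm.le
  obtain ⟨m, h1, h2, h3, h4⟩ := (e1.and (e2.and (e3.and (eventually_gt_atTop 0)))).exists
  have hmr : (0 : ℝ) < m := by exact_mod_cast h4
  set p : ℝ := c0 / m with hp
  have hp0 : 0 < p := by rw [hp]; positivity
  have hp1 : p ≤ 1 := h2.trans hb1
  have hmp : m * p = c0 := by rw [hp]; field_simp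
  have hx : p / (2 * d) = L / m := by rw [hp, hc0]; field_simp
  have hmx : (m : ℝ) * (L / m) = L := by field_simp
  have hlow : δ ≤ (1 - p / (2 * d)) ^ m := by
    rw [hx]
    exact slow_lower (by positivity) h3 hmx
  have hup : (1 - p / (2 * d)) ^ m ≤ Real.exp (-L) := by
    rw [hx]
    exact slow_upper (by linarith) hmx
  have hKr : (2 : ℝ) ≤ (4 * M - 1 : ℕ) + 2 := by
    have : (0 : ℝ) ≤ (4 * M - 1 : ℕ) := Nat.cast_nonneg _
    linarith
  refine ⟨PMF.pure m, 1, p, ?_, ⟨one_pos, le_rfl⟩, ⟨hp0, hp1⟩, ?_, ?_⟩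
  · rw [PMF.pure_apply, if_neg (by omega)]
    exact one_pos
  · intro A₁ A₂ hA₁ hA₂ heq
    have hne : (⟨0, by omega⟩ : Fin d) ≠ ⟨1, by omega⟩ := by
      intro h
      rw [Fin.mk.injEq] at h
      omega
    obtain ⟨x, hxA, hx1⟩ := shape_fast hne m h4 1 zero_le_one le_rfl M hM0 h1 A₁ hA₁
    have hae := fast_ae (⟨0, by omega⟩ : Fin d) m p (4 / δ) M
      (fast_prob (⟨0, by omega⟩ : Fin d) m p c0 b δ hp0.le hp1 hmp hδ0 hδ1 hlow hb h2 M' hM2)
    have hx2 := shape_slow (⟨0, by omega⟩ : Fin d) m h4 p M hM0 hae A₂ hA₂ x (heq ▸ hxA)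
    linarith
  · intro tie
    refine coexist d hd m h4 _ ?_ ?_ ?_ tie
    · intro j
      cases j
      · exact hp0.le
      · exact zero_le_one
    · intro j
      cases j
      · exact hp1
      · exact le_rfl
    · intro j
      cases j
      · show 2 * (1 - p / (2 * d)) ^ m ≤ 1 / 884101250
        linarith
      · show 2 * (1 - 1 / (2 * (d : ℝ))) ^ m ≤ 1 / 884101250
        have h5 : 0 ≤ (1 - 1 / (2 * (d : ℝ))) ^ m := pow_nonneg hr0 m
        calc 2 * (1 - 1 / (2 * (d : ℝ))) ^ m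
            ≤ ((4 * M - 1 : ℕ) + 2 : ℝ) * (1 - 1 / (2 * (d : ℝ))) ^ m := by gcongr
          _ ≤ _ := h1

end Pool.Agent.Results.MP_4318c2_pr.CoexistShapesDiffer
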